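import Pool.Agent.Helper15.T5.Stmts
import Pool.Agent.Helper88.T4.Poly

set_option autoImplicit false

/-! Module HOM of the project T5: radial moments of homogeneous functions of degree `0`. -/

open Finset MeasureTheory Filter Topology

namespace Pool.Agent.Helper99.T5

open Pool.Agent.Helper15.T4 Pool.Agent.Helper46.T5 Pool.Agent.Helper15.T5 Pool.Agent.Helper88.T4

section

variable {ι : Type} [Fintype ι]

/-- A bounded measurable function times a power of `nsq` times a Gaussian is integrable. -/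
theorem hom_int (g : (ι → ℝ) → ℝ) (C : ℝ) (hg : Measurable g) (hC : ∀ x, |g x| ≤ C) (k : ℕ)
    (a : ℝ) (ha : 0 < a) :
    Integrable (fun x : ι → ℝ => g x * nsq x ^ k * Real.exp (-(a * nsq x))) := by
  have hP : PG (fun x : ι → ℝ => ((nsq x : ℝ) : ℂ) ^ k) := by
    have h1 : PG (fun x : ι → ℝ => ((nsq x : ℝ) : ℂ)) := by
      have h2 : PG (fun x : ι → ℝ => ∑ i, (x i : ℂ) * (x i : ℂ)) :=
        PG.sum _ _ (fun i _ => (PG.coord i).mul (PG.coord i))
      have e : (fun x : ι → ℝ => ((nsq x : ℝ) : ℂ)) =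
          fun x : ι → ℝ => ∑ i, (x i : ℂ) * (x i : ℂ) := by
        funext x
        unfold nsq
        push_cast
        apply Finset.sum_congr rfl
        intro i _
        ring
      rw [e]
      exact h2
    have h3 := PG.prod (range k) (fun _ : ℕ => fun x : ι → ℝ => ((nsq x : ℝ) : ℂ))
      (fun _ _ => h1)
    simpa using h3
  have h1 := (hP.integrable a ha).norm
  have h2 : (fun x : ι → ℝ => ‖((nsq x : ℝ) : ℂ) ^ k * ((Real.exp (-(a * nsq x)) : ℝ) : ℂ)‖) =
      fun x : ι → ℝ => nsq x ^ k * Real.exp (-(a * nsq x)) := by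
    funext x
    rw [norm_mul, norm_pow, Complex.norm_real, Complex.norm_real, Real.norm_eq_abs,
      Real.norm_eq_abs, abs_of_nonneg (nsq_nonneg x), abs_of_pos (Real.exp_pos _)]
  rw [h2] at h1
  have h3 := h1.bdd_mul (c := C) hg.aestronglyMeasurable
    (Filter.Eventually.of_forall (fun x => by rw [Real.norm_eq_abs]; exact hC x))
  refine h3.congr ?_
  filter_upwards with x
  ring

/-- The scaling. -/
theorem hom_scale (g : (ι → ℝ) → ℝ)
    (hs : ∀ (s : ℝ) (x : ι → ℝ), 0 < s → g (s • x) = g x) (k : ℕ) (t : ℝ) (ht : 0 < t) :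
    ∫ x : ι → ℝ, g x * nsq x ^ k * Real.exp (-(t * nsq x / 2)) =
      t ^ (-((Fintype.card ι : ℝ) / 2 + k)) *
        ∫ x : ι → ℝ, g x * nsq x ^ k * Real.exp (-(nsq x / 2)) := by
  have h1 := Measure.integral_comp_smul_of_nonneg (volume : Measure (ι → ℝ))
    (fun x : ι → ℝ => g x * nsq x ^ k * Real.exp (-(nsq x / 2))) (Real.sqrt t)
    (hR := Real.sqrt_nonneg t)
  rw [Module.finrank_fintype_fun_eq_card] at h1
  have h2 : ∀ x : ι → ℝ, g (Real.sqrt t • x) * nsq (Real.sqrt t • x) ^ k *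
      Real.exp (-(nsq (Real.sqrt t • x) / 2)) =
      t ^ k * (g x * nsq x ^ k * Real.exp (-(t * nsq x / 2))) := by
    intro x
    rw [hs _ _ (Real.sqrt_pos.mpr ht), nsq_smul, Real.sq_sqrt ht.le, mul_pow]
    ring
  simp_rw [h2] at h1
  rw [integral_const_mul, smul_eq_mul] at h1
  have hk : t ^ k ≠ 0 := by positivity
  have h3 : ∫ x : ι → ℝ, g x * nsq x ^ k * Real.exp (-(t * nsq x / 2)) =
      (t ^ k)⁻¹ * ((Real.sqrt t ^ Fintype.card ι)⁻¹ *
        ∫ x : ι → ℝ, g x * nsq x ^ k * Real.exp (-(nsq x / 2))) := by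
    rw [← h1]
    field_simp
  rw [h3, ← mul_assoc]
  congr 1
  rw [neg_add, Real.rpow_add ht, Real.rpow_neg ht.le, Real.rpow_neg ht.le, Real.rpow_natCast,
    Real.sqrt_eq_rpow, ← Real.rpow_natCast (t ^ (1 / 2 : ℝ)), ← Real.rpow_mul ht.le]
  rw [mul_comm]
  congr 3
  ring

theorem hom_step (g : (ι → ℝ) → ℝ) (C : ℝ) (hg : Measurable g) (hC : ∀ x, |g x| ≤ C)
    (hs : ∀ (s : ℝ) (x : ι → ℝ), 0 < s → g (s • x) = g x) (k : ℕ) :
    ∫ x : ι → ℝ, g x * nsq x ^ (k + 1) * Real.exp (-(nsq x / 2)) =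
      ((Fintype.card ι : ℝ) + 2 * k) *
        ∫ x : ι → ℝ, g x * nsq x ^ k * Real.exp (-(nsq x / 2)) := by
  have hmeas : ∀ (t : ℝ) (j : ℕ), AEStronglyMeasurable
      (fun x : ι → ℝ => g x * nsq x ^ j * Real.exp (-(t * nsq x / 2))) volume := by
    intro t j
    apply Measurable.aestronglyMeasurable
    have h1 : Measurable (fun x : ι → ℝ => nsq x) := continuous_nsq.measurable
    fun_prop
  have hint : ∀ (t : ℝ) (j : ℕ), 0 < t →
      Integrable (fun x : ι → ℝ => g x * nsq x ^ j * Real.exp (-(t * nsq x / 2))) := by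
    intro t j ht
    have := hom_int g C hg hC j (t / 2) (by positivity)
    refine this.congr ?_
    filter_upwards with x
    congr 3
    ring
  have hC0 : 0 ≤ C := (abs_nonneg _).trans (hC 0)
  have key := hasDerivAt_integral_of_dominated_loc_of_deriv_le
    (μ := (volume : Measure (ι → ℝ))) (𝕜 := ℝ)
    (F := fun (t : ℝ) (x : ι → ℝ) => g x * nsq x ^ k * Real.exp (-(t * nsq x / 2)))
    (F' := fun (t : ℝ) (x : ι → ℝ) =>
      g x * nsq x ^ k * (Real.exp (-(t * nsq x / 2)) * (-(nsq x / 2))))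
    (x₀ := 1) (s := Set.Ioo (1 / 2 : ℝ) 2)
    (bound := fun x : ι → ℝ => |g x * nsq x ^ (k + 1) * Real.exp (-(1 / 2 * nsq x / 2))|)
    (Ioo_mem_nhds (by norm_num) (by norm_num))
    (Filter.Eventually.of_forall (fun t => hmeas t k))
    (hint 1 k one_pos)
    (by
      have := (hmeas 1 (k + 1)).mul_const (-(1 / 2 : ℝ))
      refine this.congr ?_
      filter_upwards with x
      ring)
    (by
      filter_upwards with x t ht
      rw [Real.norm_eq_abs, abs_mul, abs_mul, abs_mul, abs_mul, abs_mul, abs_neg,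
        abs_of_nonneg (nsq_nonneg x |> fun h => pow_nonneg h k),
        abs_of_nonneg (nsq_nonneg x |> fun h => pow_nonneg h (k + 1)),
        abs_of_pos (Real.exp_pos _), abs_of_pos (Real.exp_pos _),
        abs_of_nonneg (div_nonneg (nsq_nonneg x) (by norm_num))]
      have hn := nsq_nonneg x
      have h1 : Real.exp (-(t * nsq x / 2)) ≤ Real.exp (-(1 / 2 * nsq x / 2)) := by
        apply Real.exp_le_exp.mpr
        have := ht.1
        nlinarith
      calc |g x| * nsq x ^ k * (Real.exp (-(t * nsq x / 2)) * (nsq x / 2))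
          ≤ |g x| * nsq x ^ k * (Real.exp (-(1 / 2 * nsq x / 2)) * (nsq x)) := by
            gcongr
            linarith
        _ = |g x| * nsq x ^ (k + 1) * Real.exp (-(1 / 2 * nsq x / 2)) := by ring)
    ((hint (1 / 2) (k + 1) (by norm_num)).abs)
    (by
      filter_upwards with x t ht
      have h1 : HasDerivAt (fun t : ℝ => -(t * nsq x / 2)) (-(1 * nsq x / 2)) t :=
        (((hasDerivAt_id t).mul_const (nsq x)).div_const 2).neg
      have h2 := (h1.exp).const_mul (g x * nsq x ^ k)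
      simpa using h2)
  have h1 : HasDerivAt (fun t : ℝ => t ^ (-((Fintype.card ι : ℝ) / 2 + k)) *
        ∫ x : ι → ℝ, g x * nsq x ^ k * Real.exp (-(nsq x / 2)))
      ((-((Fintype.card ι : ℝ) / 2 + k)) * (1 : ℝ) ^ (-((Fintype.card ι : ℝ) / 2 + k) - 1) *
        ∫ x : ι → ℝ, g x * nsq x ^ k * Real.exp (-(nsq x / 2))) 1 :=
    (Real.hasDerivAt_rpow_const (Or.inl one_ne_zero)).mul_const _
  have h2 : (fun t : ℝ => ∫ x : ι → ℝ, g x * nsq x ^ k * Real.exp (-(t * nsq x / 2))) =ᶠ[𝓝 1]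
      (fun t : ℝ => t ^ (-((Fintype.card ι : ℝ) / 2 + k)) *
        ∫ x : ι → ℝ, g x * nsq x ^ k * Real.exp (-(nsq x / 2))) := by
    filter_upwards [Ioi_mem_nhds (zero_lt_one' ℝ)] with t ht
    exact hom_scale g hs k t ht
  have h3 := (h1.congr_of_eventuallyEq h2).unique key.2
  rw [Real.one_rpow] at h3
  have h4 : ∫ x : ι → ℝ, g x * nsq x ^ k * (Real.exp (-(1 * nsq x / 2)) * (-(nsq x / 2))) =
      (-(1 / 2)) * ∫ x : ι → ℝ, g x * nsq x ^ (k + 1) * Real.exp (-(nsq x / 2)) := by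
    rw [← integral_const_mul]
    congr 1
    funext x
    rw [one_mul]
    ring
  rw [h4] at h3
  linarith

end

theorem st_HOM : ST_HOM := by
  intro ι _ g C hg hC hs k
  have e : ∀ x : ι → ℝ, -(nsq x) / 2 = -(nsq x / 2) := fun x => by ring
  simp_rw [e]
  induction k with
  | zero => simp
  | succ k ih =>
    rw [hom_step g C hg hC hs k, ih, Finset.prod_range_succ]
    ring

end Pool.Agent.Helper99.T5
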